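import Pool.Agent.Q169.SP.Joins
import Pool.Agent.Q169.RC.AtT
import Pool.Agent.Q169.RC.GrowB

/-!
# Joins in flag homology spheres and the last entry of the gamma-vector

For flag homology spheres of dimension `d - 1` with good simplices the joins which occur as full subcomplexes, of the
sphere if `d` is even and of the links of the vertices if `d` is odd, give lower bounds for `γ_⌊d/2⌋`.
-/

set_option autoImplicit false

namespace Pool.Agent.Results.MP_19e880_co.GammaTopJoins

open Finset Pool.Agent.W907.SG Pool.Agent.W907.SM Pool.Agent.TH652.Above Pool.Agent.Q169.RC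
open Pool.Agent.W497.FS (IsGamma)
open Pool.Agent.Q169.SP (flagComplex IsHomologySphere IsJoin prodChi prodChi_eq mem_flag)

/-- Let the flag complex of `G` be a homology sphere of dimension `d - 1` over the reals (`HSph d G`) and modulo `2`,
with gamma-vector `γ`.
(1) If `d = 2 m` and all simplices are good, and the full subcomplex on `A` is the join of `m` complexes `A_j` which
are not simplices, then `γ_m ≥ ∏_j (-4 χ(A_j))`.
(2) If `d = 2 m + 1` and all nonempty simplices are good, and `C` is a set of vertices such that for each `v ∈ C` the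
full subcomplex on `A_v`, a set of neighbours of `v`, is the join of `m` complexes `A_(v,j)` which are not simplices,
then `γ_m ≥ (1/2) ∑_(v ∈ C) ∏_j (-4 χ(A_(v,j)))`. -/
theorem result (d m N : ℕ) (G : SimpleGraph (Fin N)) (hR : HSph d G) (h2 : IsHomologySphere (flagComplex G) d)
    (γ : ℕ → ℤ) (hγ : IsGamma d (flagComplex G) γ) :
    (d = 2 * m → (∀ T : Finset (Fin N), G.IsClique (T : Set (Fin N)) → Good d G T) →
      ∀ (A : Set (Fin N)) (p : Fin N → Fin m), IsJoin G A p → prodChi G A p ≤ (γ m : ℚ)) ∧
    (d = 2 * m + 1 → (∀ T : Finset (Fin N), T.Nonempty → G.IsClique (T : Set (Fin N)) → Good d G T) →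
      ∀ (C : Finset (Fin N)) (A : Fin N → Set (Fin N)) (p : Fin N → Fin N → Fin m),
      (∀ v ∈ C, A v ⊆ G.neighborSet v ∧ IsJoin G (A v) (p v)) →
      (1 / 2) * ∑ v ∈ C, prodChi G (A v) (p v) ≤ (γ m : ℚ)) := by
  classical
  have hH : Pool.Agent.Y131.KS.HSph (flagComplex G) d := ⟨h2.1, h2.2.1, h2.2.2.1, h2.2.2.2⟩
  have h0 : G.IsClique ((∅ : Finset (Fin N)) : Set (Fin N)) := by simp
  have hu : lk G (∅ : Finset (Fin N)) = Set.univ := by
    ext x
    simp only [Set.mem_univ, iff_true]
    exact fun t ht => absurd ht (notMem_empty t)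
  have hle : ∀ S ∈ flagComplex G, S.card ≤ d := h2.2.1
  have h4 : (0 : ℚ) ≤ 4 ^ m := by positivity
  refine ⟨?_, ?_⟩
  · rintro rfl hg A p hA
    have h3 := join_at G (flagComplex G) (mem_flag G) hH hR ∅ h0 (by rw [card_empty]; omega)
      (fun T' _ hc => hg T' hc) A (by rw [hu]; exact Set.subset_univ _) p hA.1 hA.2
    rw [hu, chiS_univ] at h3
    rw [gamma_even G (flagComplex G) (mem_flag G) hle γ hγ, prodChi_eq]
    exact mul_le_mul_of_nonneg_left h3 h4
  · rintro rfl hg C A p hA
    have hg1 : ∀ v : Fin N, ∀ T' : Finset (Fin N), {v} ⊆ T' → G.IsClique (T' : Set (Fin N)) →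
        Good (2 * m + 1) G T' := fun v T' hT' hc => hg T' ⟨v, hT' (mem_singleton_self v)⟩ hc
    rw [gamma_odd G (flagComplex G) (mem_flag G) hle (chi_odd G hR) γ hγ]
    refine mul_le_mul_of_nonneg_left ?_ (by norm_num)
    refine (sum_le_sum (fun v hv => ?_)).trans (sum_le_sum_of_subset_of_nonneg (subset_univ C)
      (fun v _ _ => mul_nonneg h4 ?_))
    · rw [prodChi_eq]
      refine mul_le_mul_of_nonneg_left ?_ h4
      refine join_at G (flagComplex G) (mem_flag G) hH hR {v} (by simp) (by rw [card_singleton]; omega)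
        (hg1 v) (A v) ?_ (p v) (hA v hv).2.1 (hA v hv).2.2
      rw [lk_one]
      exact (hA v hv).1
    · refine sign_at G (flagComplex G) (mem_flag G) hH hR {v} (by simp) (by rw [card_singleton]; omega) ∅
        (fun _ => 0) (fun u _ hu => absurd hu (Set.notMem_empty u)) ?_
      intro w _ _ T' hT' hc
      exact hg T' ⟨w, hT' (mem_insert_self _ _)⟩ hc

end Pool.Agent.Results.MP_19e880_co.GammaTopJoins
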