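import Pool.Agent.Q169.SP.Sphere
import Pool.Agent.Q169.RC.AtT
import Pool.Agent.Q169.RC.GrowB

/-!
# The sign of the last entry of the gamma-vector of flag homology spheres with coloured exceptional vertices

For flag homology spheres of dimension `d - 1` we prove `γ_⌊d/2⌋ ≥ 0` (Gal's conjecture for the last index; the
Charney-Davis conjecture if `d` is even) under a local colouring criterion.
-/

set_option autoImplicit false

namespace Pool.Agent.Results.MP_19e880_co.GammaTopSign

open Finset Pool.Agent.W907.SG Pool.Agent.W907.SM Pool.Agent.TH652.Above Pool.Agent.Q169.RC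
open Pool.Agent.W497.FS (IsGamma)
open Pool.Agent.Q169.SP (flagComplex IsHomologySphere Colours mem_flag)

/-- Let the flag complex of `G` be a homology sphere of dimension `d - 1` over the reals (`HSph d G`) and modulo `2`,
with gamma-vector `γ`.
(1) If `d = 2 m` and there is a set `B` of vertices, coloured with `m + 1` colours, such that all simplices with a
vertex outside `B` are good, then `γ_m ≥ 0`.
(2) If `d = 2 m + 1` and for each vertex `v` there is a set `B` of vertices, coloured with `m + 1` colours, such that all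
simplices containing `v` and a neighbour of `v` outside `B` are good, then `γ_m ≥ 0`. -/
theorem result (d m N : ℕ) (G : SimpleGraph (Fin N)) (hR : HSph d G) (h2 : IsHomologySphere (flagComplex G) d)
    (γ : ℕ → ℤ) (hγ : IsGamma d (flagComplex G) γ) :
    (d = 2 * m → ∀ (B : Set (Fin N)) (κ : Fin N → Fin (m + 1)), Colours G B κ →
      (∀ v, v ∉ B → ∀ T : Finset (Fin N), v ∈ T → G.IsClique (T : Set (Fin N)) → Good d G T) → 0 ≤ γ m) ∧
    (d = 2 * m + 1 → (∀ v : Fin N, ∃ (B : Set (Fin N)) (κ : Fin N → Fin (m + 1)), Colours G B κ ∧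
      ∀ w, w ∉ B → G.Adj v w → ∀ T : Finset (Fin N), v ∈ T → w ∈ T → G.IsClique (T : Set (Fin N)) → Good d G T) →
      0 ≤ γ m) := by
  classical
  have hH : Pool.Agent.Y131.KS.HSph (flagComplex G) d := ⟨h2.1, h2.2.1, h2.2.2.1, h2.2.2.2⟩
  have h0 : G.IsClique ((∅ : Finset (Fin N)) : Set (Fin N)) := by simp
  have hu : lk G (∅ : Finset (Fin N)) = Set.univ := by
    ext x
    simp only [Set.mem_univ, iff_true]
    exact fun t ht => absurd ht (notMem_empty t)
  have hle : ∀ S ∈ flagComplex G, S.card ≤ d := h2.2.1
  have h4 : (0 : ℚ) ≤ 4 ^ m := by positivity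
  refine ⟨?_, ?_⟩
  · rintro rfl B κ hκ hB
    have h3 := sign_at G (flagComplex G) (mem_flag G) hH hR ∅ h0 (by rw [card_empty]; omega) B κ hκ
      (fun v _ hv T' hT' hc => hB v hv T' (hT' (mem_insert_self _ _)) hc)
    rw [hu, chiS_univ] at h3
    have h5 := gamma_even G (flagComplex G) (mem_flag G) hle γ hγ
    have h6 : (0 : ℚ) ≤ γ m := by rw [h5]; exact mul_nonneg h4 h3
    exact_mod_cast h6
  · rintro rfl hB
    have h5 := gamma_odd G (flagComplex G) (mem_flag G) hle (chi_odd G hR) γ hγ
    have h6 : (0 : ℚ) ≤ γ m := by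
      rw [h5]
      refine mul_nonneg (by norm_num) (sum_nonneg fun v _ => mul_nonneg h4 ?_)
      obtain ⟨B, κ, hκ, h⟩ := hB v
      refine sign_at G (flagComplex G) (mem_flag G) hH hR {v} (by simp) (by rw [card_singleton]; omega) B κ hκ ?_
      intro w hw hwB T' hT' hc
      exact h w hwB (hw v (mem_singleton_self v)).symm T' (hT' (by simp)) (hT' (mem_insert_self _ _)) hc
    exact_mod_cast h6

end Pool.Agent.Results.MP_19e880_co.GammaTopSign
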