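import Pool.Agent.Q116.GD.Strong
import Pool.Agent.TH417.Gal.F

/-!
# Weak and strong forms of Gal's conjecture

For real numbers `c_j` consider the functional `L(S) = ∑_j c_j γ_j(S)`, `0 ≤ j ≤ d / 2`, of the
gamma-vector of a flag homology `(d-1)`-sphere `S` over a field `k`; for `L = γ_i` the inequality
`L ≥ 0` is Gal's conjecture.  We compare three statements for the flag homology spheres of dimension
`d - 1`:

* `Exact`:  `L(S) ≥ 0`;
* `Weak`:   `L(S) ≥ -ε |S|` for every `ε > 0` and all `S` with sufficiently many vertices, where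
  `|S|` is the number of all faces;
* `Strong`: `2 L(S) ≥ L(lk u) + L(lk v)` for any two vertices `u`, `v` not joined by an edge.

Up to every given dimension `Weak` and `Strong` are equivalent, and if `c_0 ≥ 0` they are equivalent
to `Exact`.  In a given dimension `Weak` implies `Strong` and a quadratic inequality (`Quadratic`),
which for `L = γ_i` is the upper bound `(i + 1) γ_(i+1) ≤ (γ_1 + 4 i) γ_i`.  Hence Gal's conjecture
is equivalent to `0 ≤ (i + 1) γ_(i+1) ≤ (γ_1 + 4 i) γ_i`.  The known inequality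
`4 γ_2 + 3 (d - 2) γ_1 ≥ 0` is strengthened in the same way.  Finally, for the gamma-numbers `γ_i` of
the spheres of dimension `2 i + r - 1` (for `r = 0` this is the Charney-Davis conjecture) it
suffices to save an unbounded power of the number of vertices for infinitely many `i`.

Proof.  Remove a vertex `u` of `S` and glue two copies of the rest along the link of `u`: the
gamma-vector of the double is `2 γ(S) - γ(lk u)`.  A vertex `v` not joined to `u` has two copies in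
the double, with the same link, which are not joined.  Doubling repeatedly along their links one
gets spheres with at most `2^(m+1) |S|` faces and `L = 2^m (2 L(S) - L(lk u) - L(lk v)) + L(lk v)`.
For the quadratic inequality sum `Strong` over pairs of vertices: the vertices `v` with
`L(lk v) > L(S)` are pairwise joined, so they form a face and have distinct partners, not joined to
them, outside this face; hence `∑_v L(lk v) ≤ f_0 L(S)`, and the left side is a combination of the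
`γ_j(S)`.  The last part uses the joins with long cycles.
-/

set_option autoImplicit false

namespace Pool.Agent.Results.MP_19e880_co.WeakAndStrongForms

open Pool.Agent.W497.FS Finset

/-- `L(S) = ∑_j c_j γ_j`, over the indices `0 ≤ j ≤ d / 2` -/
noncomputable def lin (c : ℕ → ℝ) (d : ℕ) (γ : ℕ → ℤ) : ℝ := ∑ j ∈ range (d / 2 + 1), c j * γ j

/-- `L(S) ≥ 0` for the flag homology `(d-1)`-spheres `S` over `k` -/
def Exact (k : Type) [Field k] (c : ℕ → ℝ) (d : ℕ) : Prop :=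
  ∀ (n : ℕ) (S : Finset (Finset (Fin n))), IsFlagSphere k d S →
    ∀ γ, IsGamma d S γ → 0 ≤ lin c d γ

/-- `L(S) ≥ -ε |S|` for every `ε > 0` and all flag homology `(d-1)`-spheres `S` over `k` with
sufficiently many vertices -/
def Weak (k : Type) [Field k] (c : ℕ → ℝ) (d : ℕ) : Prop :=
  ∀ ε : ℝ, 0 < ε → ∃ N : ℕ, ∀ (n : ℕ) (S : Finset (Finset (Fin n))), IsFlagSphere k d S →
    N ≤ numVert S → ∀ γ, IsGamma d S γ → -ε * (S.card : ℝ) ≤ lin c d γ

/-- `2 L(S) ≥ L(lk u) + L(lk v)` for the flag homology `(d-1)`-spheres `S` over `k` and any two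
vertices `u`, `v` which are not joined by an edge -/
def Strong (k : Type) [Field k] (c : ℕ → ℝ) (d : ℕ) : Prop :=
  ∀ (n : ℕ) (S : Finset (Finset (Fin n))), IsFlagSphere k d S →
    ∀ u v : Fin n, {u} ∈ S → {v} ∈ S → u ≠ v → {u, v} ∉ S →
    ∀ γ β β', IsGamma d S γ → IsGamma (d - 1) (link S {u}) β → IsGamma (d - 1) (link S {v}) β' →
      lin c (d - 1) β + lin c (d - 1) β' ≤ 2 * lin c d γ

/-- `∑_j c_j (j + 1) γ_(j+1) ≤ ∑_j c_j (γ_1 + 4 j) γ_j`, over `0 ≤ j ≤ d / 2`, where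
`γ_(d/2+1) = 0` -/
def Quadratic (k : Type) [Field k] (c : ℕ → ℝ) (d : ℕ) : Prop :=
  ∀ (n : ℕ) (S : Finset (Finset (Fin n))), IsFlagSphere k d S →
    ∀ γ, IsGamma d S γ → γ (d / 2 + 1) = 0 →
      ∑ j ∈ range (d / 2 + 1), c j * ((j + 1) * γ (j + 1)) ≤
        ∑ j ∈ range (d / 2 + 1), c j * ((γ 1 + 4 * j) * γ j)

/-- the family with one field -/
abbrev One (k : Type) : Unit → Type := fun _ => k

section bridge

variable {k : Type} [Field k] {c : ℕ → ℝ} {d : ℕ}

theorem fam {n : ℕ} {S : Finset (Finset (Fin n))} :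
    Q116.GD.Fam (One k) d S ↔ IsFlagSphere k d S := ⟨fun h => h (), fun h _ => h⟩

theorem exact_iff : Exact k c d ↔ Q116.GD.NonnegL (One k) c d := by
  constructor
  · intro h n S hS a ha
    exact h n S (hS ()) a (Q116.GD.isGamma_of_exp (hS ()) ha)
  · intro h n S hS γ hγ
    obtain ⟨a, ha⟩ := Q116.GD.exists_exp hS
    have h1 := h n S (fam.2 hS) a ha
    rwa [← Q116.GD.lin_congr c (Q116.GD.gamma_eq_exp hS ha hγ)] at h1

theorem weak_iff : Weak k c d ↔ Q116.GD.AsymL (One k) c d := by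
  constructor
  · intro h ε hε
    obtain ⟨N, hN⟩ := h ε hε
    exact ⟨N, fun n S hS hNS a ha => hN n S (hS ()) hNS a (Q116.GD.isGamma_of_exp (hS ()) ha)⟩
  · intro h ε hε
    obtain ⟨N, hN⟩ := h ε hε
    refine ⟨N, fun n S hS hNS γ hγ => ?_⟩
    obtain ⟨a, ha⟩ := Q116.GD.exists_exp hS
    have h1 := hN n S (fam.2 hS) hNS a ha
    rwa [← Q116.GD.lin_congr c (Q116.GD.gamma_eq_exp hS ha hγ)] at h1

theorem link_eq {n : ℕ} {S : Finset (Finset (Fin n))} (hS : IsFlagSphere k d S) {u : Fin n}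
    (hu : u ∈ vert S) : link S {u} = cl (skel S) (lk (skel S) (vert S) u) := by
  have h1 : ({u} : Finset (Fin n)) ∈ cl (skel S) (vert S) := singleton_mem_cl hu
  have h2 := link_cl h1
  rwa [hS.cl_eq, lkF_singleton] at h2

theorem strong_iff : Strong k c d ↔ Q116.GD.StrongL (One k) c d := by
  constructor
  · intro h n S hS u hu v hv huv hadj a b b' ha hb hb'
    rcases d with _ | d
    · rw [Q116.GD.vert_zero (hS ())] at hu
      exact absurd hu (notMem_empty u)
    rw [Nat.add_sub_cancel] at hb hb'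
    rw [← Q116.GD.PS_cl] at hb hb'
    have hLu := Q116.GD.link_fin (hS ()) hu
    have hLv := Q116.GD.link_fin (hS ()) hv
    refine h n S (hS ()) u v (mem_vert.1 hu) (mem_vert.1 hv) huv (fun h' => hadj ⟨huv, h'⟩) a b b'
      (Q116.GD.isGamma_of_exp (hS ()) ha) ?_ ?_
    · rw [link_eq (hS ()) hu]
      exact Q116.GD.isGamma_of_exp hLu hb
    · rw [link_eq (hS ()) hv]
      exact Q116.GD.isGamma_of_exp hLv hb'
  · intro h n S hS u v hu hv huv hadj γ β β' hγ hβ hβ'
    have hu' := mem_vert.2 hu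
    have hv' := mem_vert.2 hv
    rcases d with _ | d
    · rw [Q116.GD.vert_zero hS] at hu'
      exact absurd hu' (notMem_empty u)
    rw [Nat.add_sub_cancel] at hβ hβ' ⊢
    rw [link_eq hS hu'] at hβ
    rw [link_eq hS hv'] at hβ'
    have hLu := Q116.GD.link_fin hS hu'
    have hLv := Q116.GD.link_fin hS hv'
    obtain ⟨a, ha⟩ := Q116.GD.exists_exp hS
    obtain ⟨b, hb⟩ := Q116.GD.exists_exp hLu
    obtain ⟨b', hb'⟩ := Q116.GD.exists_exp hLv
    have h1 := h n S (fam.2 hS) u hu' v hv' huv (fun h' => hadj h'.2) a b b' ha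
      (by rwa [Nat.add_sub_cancel, ← Q116.GD.PS_cl])
      (by rwa [Nat.add_sub_cancel, ← Q116.GD.PS_cl])
    rw [Nat.add_sub_cancel, ← Q116.GD.lin_congr c (Q116.GD.gamma_eq_exp hS ha hγ),
      ← Q116.GD.lin_congr c (Q116.GD.gamma_eq_exp hLu hb hβ),
      ← Q116.GD.lin_congr c (Q116.GD.gamma_eq_exp hLv hb' hβ')] at h1
    exact h1

/-- a gamma-vector continued by zero -/
theorem exp_of {n : ℕ} {S : Finset (Finset (Fin n))} (hS : IsFlagSphere k d S) {γ : ℕ → ℤ}
    (hγ : IsGamma d S γ) (h0 : γ (d / 2 + 1) = 0) :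
    ∃ a, Q116.GD.Exp d (Q116.GD.PS S) a ∧ ∀ i ≤ d / 2 + 1, γ i = a i := by
  obtain ⟨a, ha⟩ := Q116.GD.exists_exp hS
  refine ⟨a, ha, fun i hi => ?_⟩
  rcases Nat.lt_or_ge (d / 2) i with h1 | h1
  · obtain rfl : i = d / 2 + 1 := by omega
    rw [h0, ha.1 _ (by omega)]
  · exact Q116.GD.gamma_eq_exp hS ha hγ i h1

theorem quadratic_of (h : Weak k c d) : Quadratic k c d := by
  intro n S hS γ hγ h0
  obtain ⟨a, ha, hga⟩ := exp_of hS hγ h0
  have e1 : ∑ j ∈ range (d / 2 + 1), c j * ((j + 1) * (γ (j + 1) : ℝ)) =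
      ∑ j ∈ range (d / 2 + 1), c j * ((j + 1) * (a (j + 1) : ℝ)) := by
    refine sum_congr rfl fun j hj => ?_
    rw [mem_range] at hj
    rw [hga (j + 1) (by omega)]
  have e2 : ∑ j ∈ range (d / 2 + 1), c j * ((γ 1 + 4 * j) * (γ j : ℝ)) =
      ∑ j ∈ range (d / 2 + 1), c j * ((a 1 + 4 * j) * (a j : ℝ)) := by
    refine sum_congr rfl fun j hj => ?_
    rw [mem_range] at hj
    rw [hga j (by omega), hga 1 (by omega)]
  rw [e1, e2]
  rcases d with _ | d
  · have h1 : a 1 = 0 := ha.1 1 (by omega)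
    simp [h1]
  · exact Q116.GD.quad (weak_iff.1 h) (fam.2 hS) ha

theorem weak_of_exact (h : Exact k c d) : Weak k c d :=
  weak_iff.2 (Q116.GD.asymL_of_nonnegL (exact_iff.1 h))

theorem sum_single {i m : ℕ} (hi : i ≤ m) (x : ℕ → ℝ) :
    ∑ j ∈ range (m + 1), (if j = i then (1 : ℝ) else 0) * x j = x i := by
  rw [sum_eq_single_of_mem i (by rw [mem_range]; omega) (fun j _ hj => by rw [if_neg hj, zero_mul]),
    if_pos rfl, one_mul]

theorem sum_two {A : ℝ} {m : ℕ} (hm : 2 ≤ m) (x : ℕ → ℝ) :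
    ∑ j ∈ range (m + 1), (if j = 1 then A else if j = 2 then (4 : ℝ) else 0) * x j =
      A * x 1 + 4 * x 2 := by
  obtain ⟨e, rfl⟩ := Nat.exists_eq_add_of_le hm
  have e1 : 2 + e + 1 = 3 + e := by omega
  have h1 : ∀ j ∈ range e, (if 3 + j = 1 then A else if 3 + j = 2 then (4 : ℝ) else 0) *
      x (3 + j) = 0 := by
    intro j _
    rw [if_neg (by omega), if_neg (by omega), zero_mul]
  rw [e1, sum_range_add, sum_eq_zero h1]
  simp [sum_range_succ]

/-- Gal's inequalities for a given dimension, and their strong form -/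
theorem gal_iff (d : ℕ) :
    (∀ (n : ℕ) (S : Finset (Finset (Fin n))), IsFlagSphere k d S → ∀ γ, IsGamma d S γ →
      ∀ i ≤ d / 2, 0 ≤ γ i) ↔
    (∀ (n : ℕ) (S : Finset (Finset (Fin n))), IsFlagSphere k d S → ∀ γ, IsGamma d S γ →
      γ (d / 2 + 1) = 0 → ∀ i ≤ d / 2,
        0 ≤ (i + 1) * γ (i + 1) ∧ (i + 1) * γ (i + 1) ≤ (γ 1 + 4 * i) * γ i) := by
  constructor
  · intro h n S hS γ hγ h0 i hi
    refine ⟨?_, ?_⟩
    · refine mul_nonneg (by positivity) ?_
      rcases Nat.lt_or_ge (d / 2) (i + 1) with h1 | h1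
      · have : i + 1 = d / 2 + 1 := by omega
        rw [this, h0]
      · exact h n S hS γ hγ (i + 1) h1
    · have hE : Exact k (fun j => if j = i then 1 else 0) d := by
        intro n S hS γ hγ
        rw [lin, sum_single hi]
        exact_mod_cast h n S hS γ hγ i hi
      have h1 := quadratic_of (weak_of_exact hE) n S hS γ hγ h0
      rw [sum_single hi (fun j => (j + 1) * (γ (j + 1) : ℝ)),
        sum_single hi (fun j => (γ 1 + 4 * j) * (γ j : ℝ))] at h1
      exact_mod_cast h1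
  · intro h n S hS γ hγ i hi
    obtain ⟨a, ha⟩ := Q116.GD.exists_exp hS
    rw [Q116.GD.gamma_eq_exp hS ha hγ i hi]
    rcases i with _ | i
    · rw [Q116.GD.exp_zero ha]
      exact zero_le_one
    · have h1 := (h n S hS a (Q116.GD.isGamma_of_exp hS ha) (ha.1 _ (by omega)) i (by omega)).1
      by_contra hcon
      push Not at hcon
      have h2 : (0 : ℤ) < i + 1 := by positivity
      have := mul_neg_of_pos_of_neg h2 hcon
      linarith

/-- the application to the second gamma-number -/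
theorem gamma_two_pairs {n : ℕ} {S : Finset (Finset (Fin n))} (hS : IsFlagSphere k d S)
    (hd : 5 ≤ d) {u v : Fin n} (hu : {u} ∈ S) (hv : {v} ∈ S) (huv : u ≠ v) (hadj : {u, v} ∉ S)
    {γ β β' : ℕ → ℤ} (hγ : IsGamma d S γ) (hβ : IsGamma (d - 1) (link S {u}) β)
    (hβ' : IsGamma (d - 1) (link S {v}) β') :
    3 * (β 1 + β' 1) ≤ 8 * γ 2 + 6 * (d - 2) * γ 1 := by
  have hE : Exact k (fun j => if j = 1 then (3 * ((d : ℝ) - 2)) else if j = 2 then 4 else 0) d := by
    intro n S hS γ hγ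
    rw [lin, sum_two (by omega)]
    have h1 := Pool.Agent.TH417.Gal.gamma_bound hS (by omega) hγ
    have h2 : (0 : ℝ) ≤ 4 * γ 2 + 3 * (d - 2) * γ 1 := by exact_mod_cast h1
    linarith
  have h1 := strong_iff.2 (Q116.GD.strongL_of_asymL (weak_iff.1 (weak_of_exact hE))) n S hS u v
    hu hv huv hadj γ β β' hγ hβ hβ'
  rw [lin, lin, lin, sum_two (by omega), sum_two (by omega), sum_two (by omega)] at h1
  have key : ∀ w : Fin n, {w} ∈ S → ∀ δ, IsGamma (d - 1) (link S {w}) δ →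
      (0 : ℝ) ≤ 4 * δ 2 + 3 * (d - 3) * δ 1 := by
    intro w hw δ hδ
    obtain ⟨e, rfl⟩ : ∃ e, d = e + 1 := ⟨d - 1, by omega⟩
    have hL := Q116.GD.link_fin hS (mem_vert.2 hw)
    rw [← link_eq hS (mem_vert.2 hw)] at hL
    rw [Nat.add_sub_cancel] at hδ
    have h2 := Pool.Agent.TH417.Gal.gamma_bound hL (by omega) hδ
    have h3 : (0 : ℝ) ≤ 4 * δ 2 + 3 * (e - 2) * δ 1 := by exact_mod_cast h2
    push_cast
    linarith
  have h2 := key u hu β hβ
  have h3 := key v hv β' hβ'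
  have h4 : (3 * (β 1 + β' 1) : ℝ) ≤ 8 * γ 2 + 6 * (d - 2) * γ 1 := by linarith
  exact_mod_cast h4

theorem gamma_three {n : ℕ} {S : Finset (Finset (Fin n))} (hS : IsFlagSphere k d S)
    (hd : 6 ≤ d) {γ : ℕ → ℤ} (hγ : IsGamma d S γ) :
    12 * γ 3 ≤ 3 * (d - 2) * γ 1 * (γ 1 + 4) + (4 * γ 1 + 44 - 6 * d) * γ 2 := by
  have hE : Exact k (fun j => if j = 1 then (3 * ((d : ℝ) - 2)) else if j = 2 then 4 else 0) d := by
    intro n S hS γ hγ
    rw [lin, sum_two (by omega)]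
    have h1 := Pool.Agent.TH417.Gal.gamma_bound hS (by omega) hγ
    have h2 : (0 : ℝ) ≤ 4 * γ 2 + 3 * (d - 2) * γ 1 := by exact_mod_cast h1
    linarith
  obtain ⟨a, ha⟩ := Q116.GD.exists_exp hS
  have h1 := quadratic_of (weak_of_exact hE) n S hS a (Q116.GD.isGamma_of_exp hS ha)
    (ha.1 _ (by omega))
  rw [sum_two (by omega) (fun j => (j + 1) * (a (j + 1) : ℝ)),
    sum_two (by omega) (fun j => (a 1 + 4 * j) * (a j : ℝ))] at h1
  rw [Q116.GD.gamma_eq_exp hS ha hγ 1 (by omega), Q116.GD.gamma_eq_exp hS ha hγ 2 (by omega),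
    Q116.GD.gamma_eq_exp hS ha hγ 3 (by omega)]
  push_cast at h1
  have h4 : (12 * a 3 : ℝ) ≤ 3 * (d - 2) * a 1 * (a 1 + 4) + (4 * a 1 + 44 - 6 * d) * a 2 := by
    norm_num at h1
    nlinarith
  exact_mod_cast h4

end bridge

/-- **Weak and strong forms of Gal's conjecture.**
(1) For every `d` Gal's inequalities for all flag homology `(d-1)`-spheres over `k` are equivalent to
`0 ≤ (i + 1) γ_(i+1) ≤ (γ_1 + 4 i) γ_i`, `0 ≤ i ≤ d / 2`, for all of them.
(2) For all real `c_j` and every `D`, `Weak` and `Strong` in the ranks `d ≤ D` are equivalent; and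
if `c_0 ≥ 0`, then `Exact` and `Strong` in the ranks `d ≤ D` are equivalent.
(3) In each rank `Weak` implies `Strong` and `Quadratic`.
(4) Unconditionally, for `d ≥ 5` and vertices `u`, `v` not joined by an edge,
`8 γ_2 + 6 (d - 2) γ_1 ≥ 3 (γ_1(lk u) + γ_1(lk v))`, and for `d ≥ 6` there is an upper bound for
`γ_3`.
(5) Let `r ≥ 0`.  Then `γ_i ≥ 0` for all `i` and all flag homology spheres of dimension
`2 i + r - 1`, if and only if for every `K` there is an `i > K` such that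
`γ_i ≥ -ε (|S| + f_0 ^ (i - K))` for all `ε > 0` and the flag homology spheres of dimension
`2 i + r - 1` with sufficiently many vertices. -/
theorem result (k : Type) [Field k] :
    (∀ d : ℕ,
      (∀ (n : ℕ) (S : Finset (Finset (Fin n))), IsFlagSphere k d S → ∀ γ, IsGamma d S γ →
        ∀ i ≤ d / 2, 0 ≤ γ i) ↔
      (∀ (n : ℕ) (S : Finset (Finset (Fin n))), IsFlagSphere k d S → ∀ γ, IsGamma d S γ →
        γ (d / 2 + 1) = 0 → ∀ i ≤ d / 2,
          0 ≤ (i + 1) * γ (i + 1) ∧ (i + 1) * γ (i + 1) ≤ (γ 1 + 4 * i) * γ i)) ∧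
    (∀ (c : ℕ → ℝ) (D : ℕ),
      ((∀ d ≤ D, Weak k c d) ↔ (∀ d ≤ D, Strong k c d)) ∧
      (0 ≤ c 0 → ((∀ d ≤ D, Exact k c d) ↔ (∀ d ≤ D, Strong k c d)))) ∧
    (∀ (c : ℕ → ℝ) (d : ℕ), Weak k c d → Strong k c d ∧ Quadratic k c d) ∧
    (∀ (n d : ℕ) (S : Finset (Finset (Fin n))), IsFlagSphere k d S → ∀ γ, IsGamma d S γ →
      (5 ≤ d → ∀ u v : Fin n, {u} ∈ S → {v} ∈ S → u ≠ v → {u, v} ∉ S → ∀ β β',
        IsGamma (d - 1) (link S {u}) β → IsGamma (d - 1) (link S {v}) β' →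
        3 * (β 1 + β' 1) ≤ 8 * γ 2 + 6 * (d - 2) * γ 1) ∧
      (6 ≤ d → 12 * γ 3 ≤ 3 * (d - 2) * γ 1 * (γ 1 + 4) + (4 * γ 1 + 44 - 6 * d) * γ 2)) ∧
    (∀ r : ℕ,
      (∀ (i n : ℕ) (S : Finset (Finset (Fin n))), IsFlagSphere k (2 * i + r) S →
        ∀ γ, IsGamma (2 * i + r) S γ → 0 ≤ γ i) ↔
      (∀ K : ℕ, ∃ i, K < i ∧ ∀ ε : ℝ, 0 < ε → ∃ N : ℕ, ∀ (n : ℕ) (S : Finset (Finset (Fin n))),
        IsFlagSphere k (2 * i + r) S → N ≤ numVert S → ∀ γ, IsGamma (2 * i + r) S γ →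
          -ε * ((S.card : ℝ) + (numVert S : ℝ) ^ (i - K)) ≤ γ i)) := by
  refine ⟨fun d => gal_iff d, fun c D => ⟨?_, fun hc => ?_⟩, fun c d h => ⟨?_, quadratic_of h⟩,
    fun n d S hS γ hγ => ⟨fun hd u v hu hv huv hadj β β' hβ hβ' =>
      gamma_two_pairs hS hd hu hv huv hadj hγ hβ hβ', fun hd => gamma_three hS hd hγ⟩,
    fun r => ?_⟩
  · rw [forall₂_congr fun d _ => weak_iff, forall₂_congr fun d _ => strong_iff]
    exact Q116.GD.main_iff c D
  · rw [forall₂_congr fun d _ => exact_iff, forall₂_congr fun d _ => strong_iff]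
    exact Q116.GD.main_nonneg c hc D
  · exact strong_iff.2 (Q116.GD.strongL_of_asymL (weak_iff.1 h))
  · have h1 := Q116.GD.criterion_two (F := One k) r
    constructor
    · intro h
      obtain h2 := h1.1 (fun i n S hS γ hγ => h i n S (hS ()) γ hγ)
      intro K
      obtain ⟨i, hi, h3⟩ := h2 K
      refine ⟨i, hi, fun ε hε => ?_⟩
      obtain ⟨N, hN⟩ := h3 ε hε
      exact ⟨N, fun n S hS hNS γ hγ => hN n S (fam.2 hS) hNS γ hγ⟩
    · intro h
      have h2 := h1.2 (fun K => by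
        obtain ⟨i, hi, h3⟩ := h K
        refine ⟨i, hi, fun ε hε => ?_⟩
        obtain ⟨N, hN⟩ := h3 ε hε
        exact ⟨N, fun n S hS hNS γ hγ => hN n S (hS ()) hNS γ hγ⟩)
      exact fun i n S hS γ hγ => h2 i n S (fam.2 hS) γ hγ

end Pool.Agent.Results.MP_19e880_co.WeakAndStrongForms
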